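import Pool.Agent.N115.IM.Stm

/-!
# Project IM (helper115), part 3: images, from `RadImages`
-/

set_option autoImplicit false
set_option linter.unusedSectionVars false

open Polynomial IntermediateField

namespace Pool.Agent.N813.IM

section fg

variable {k F K : Type} [Field k] [Field F] [Field K] [Algebra k F] [Algebra k K] [Algebra F K]
  [IsScalarTower k F K]

/-- subfields of finite index of finitely generated fields are finitely generated (copy of
`Pool.Agent.TH466.QG.ess_below`) -/
theorem ess_below [FiniteDimensional F K] [hK : Algebra.EssFiniteType k K] :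
    Algebra.EssFiniteType k F := by
  have hKF : Algebra.IsAlgebraic F K := inferInstance
  obtain ⟨s, hs⟩ := exists_isTranscendenceBasis k F
  -- the transcendence basis is finite
  have hfin : Set.Finite s := by
    have h1 : IsTranscendenceBasis k (algebraMap F K ∘ ((↑) : s → F)) := hs.algebraMap_comp
    have h2 : Algebra.trdeg k K < Cardinal.aleph0 := trdeg_lt_aleph0 k K
    have h3 := h1.cardinalMk_eq_trdeg
    rw [← h3] at h2
    exact Cardinal.lt_aleph0_iff_set_finite.1 h2
  let A : IntermediateField k F := adjoin k s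
  have hA : Algebra.EssFiniteType k A := by
    rw [essFiniteType_iff]
    exact ⟨hfin.toFinset, by rw [Set.Finite.coe_toFinset]⟩
  have t1 : IsScalarTower A F K := inferInstance
  have t2 : IsScalarTower k A K := IsScalarTower.of_algebraMap_eq fun x => by
    rw [IsScalarTower.algebraMap_apply k F K, IsScalarTower.algebraMap_apply A F K,
      ← IsScalarTower.algebraMap_apply k A F]
  have hAF : Algebra.IsAlgebraic A F := by
    have h1 := hs.isAlgebraic_field
    rwa [Subtype.range_coe] at h1
  have hAK : Algebra.IsAlgebraic A K := Algebra.IsAlgebraic.trans A F K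
  have hAess : Algebra.EssFiniteType A K := Algebra.EssFiniteType.of_comp k A K
  have hAKfin : Module.Finite A K := Algebra.finite_of_essFiniteType_of_isAlgebraic
  have hAFfin : Module.Finite A F := by
    refine Module.Finite.of_injective
      ((IsScalarTower.toAlgHom A F K).toLinearMap) (algebraMap F K).injective
  have hAFess : Algebra.EssFiniteType A F := inferInstance
  exact Algebra.EssFiniteType.comp k A F

end fg

/-- a primitive element with coefficients in an infinite field of constants -/
theorem exists_prim {k L E : Type} [Field k] [Infinite k] [Field L] [Field E] [Algebra k L]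
    [Algebra k E] [Algebra L E] [IsScalarTower k L E] [FiniteDimensional L E]
    [Algebra.IsSeparable L E] {M : ℕ} (z : Fin M → E)
    (hz : IntermediateField.adjoin L (Set.range z) = ⊤) :
    ∃ lam : Fin M → k, IntermediateField.adjoin L {∑ i, lam i • z i} = ⊤ := by
  classical
  set A := AlgebraicClosure L with hAdef
  have hA : ∀ x : E, ((minpoly L x).map (algebraMap L A)).Splits := fun x =>
    IsAlgClosed.splits _
  have hpair : ∀ φ ψ : E →ₐ[L] A, φ ≠ ψ →
      (∑ i : Fin M, C (φ (z i) - ψ (z i)) * (X : A[X]) ^ (i : ℕ)) ≠ 0 := by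
    intro φ ψ hne h0
    apply hne
    have h1 : ∀ i, φ (z i) = ψ (z i) := by
      intro i
      have h2 := congrArg (fun p => p.coeff (i : ℕ)) h0
      simp only [finsetSum_coeff, coeff_C_mul, coeff_X_pow, coeff_zero] at h2
      rw [Finset.sum_eq_single i] at h2
      · rw [if_pos rfl, mul_one] at h2
        exact sub_eq_zero.1 h2
      · intro j _ hj
        rw [if_neg (fun h => hj (Fin.ext h.symm)), mul_zero]
      · intro h
        exact absurd (Finset.mem_univ _) h
    ext x
    have hx : x ∈ IntermediateField.adjoin L (Set.range z) := by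
      rw [hz]
      trivial
    induction hx using IntermediateField.adjoin_induction with
    | mem x hx =>
      obtain ⟨i, rfl⟩ := hx
      exact h1 i
    | algebraMap x => rw [AlgHom.commutes, AlgHom.commutes]
    | add x y hx hy h2 h3 => rw [map_add, map_add, h2, h3]
    | inv x hx h2 => rw [map_inv₀, map_inv₀, h2]
    | mul x y hx hy h2 h3 => rw [map_mul, map_mul, h2, h3]
  set Q : A[X] := ∏ p : (E →ₐ[L] A) × (E →ₐ[L] A), if p.1 = p.2 then 1 else
    (∑ i : Fin M, C (p.1 (z i) - p.2 (z i)) * (X : A[X]) ^ (i : ℕ)) with hQ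
  have hQ0 : Q ≠ 0 := by
    rw [hQ, Finset.prod_ne_zero_iff]
    rintro ⟨φ, ψ⟩ -
    split_ifs with h
    · exact one_ne_zero
    · exact hpair φ ψ h
  obtain ⟨x, hx⟩ : ∃ x : k, Q.eval (algebraMap k A x) ≠ 0 := by
    by_contra hcon
    push Not at hcon
    apply hQ0
    apply Polynomial.eq_zero_of_infinite_isRoot
    exact (Set.infinite_range_of_injective (algebraMap k A).injective).mono (by
      rintro _ ⟨x, rfl⟩
      exact hcon x)
  refine ⟨fun i => x ^ (i : ℕ), ?_⟩
  rw [Field.primitive_element_iff_algHom_eq_of_eval' L A hA]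
  intro φ ψ hφψ
  by_contra hne
  apply hx
  rw [hQ, eval_prod]
  apply Finset.prod_eq_zero (Finset.mem_univ (φ, ψ))
  rw [if_neg hne, eval_finsetSum]
  have h4 : ∀ (χ : E →ₐ[L] A) (c : k) (y : E), χ (c • y) = algebraMap k A c * χ y := by
    intro χ c y
    rw [Algebra.smul_def, map_mul, IsScalarTower.algebraMap_apply k L E, AlgHom.commutes,
      ← IsScalarTower.algebraMap_apply k L A]
  have h5 : φ (∑ i : Fin M, x ^ (i : ℕ) • z i) = ψ (∑ i : Fin M, x ^ (i : ℕ) • z i) := hφψ
  rw [map_sum, map_sum] at h5
  simp only [h4] at h5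
  simp only [eval_mul, eval_C, eval_pow, eval_X, map_pow] at h5 ⊢
  rw [← sub_eq_zero, ← Finset.sum_sub_distrib] at h5
  rw [← h5]
  exact Finset.sum_congr rfl fun i _ => by ring


theorem images (hR : Pool.Agent.N115.IM.RadImages) : Pool.Agent.N115.IM.Images := by
  classical
  intro k K L _ _ _ _ _ _ _ _ _ _ _ w r n m N hw hr htr hfin hm hN a ha H hH hHn hHalg y hy hmult
  have hnN : n < N + 1 := by
    have : 0 ≤ (n + 2 * r - 1) ^ 2 := Nat.zero_le _
    omega
  have hinj : Function.Injective fun i => algebraMap k K (a i) :=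
    (algebraMap k K).injective.comp ha
  obtain ⟨i0, hi0⟩ : ∃ i0, y i0 ≠ 0 := by
    by_contra hcon
    push Not at hcon
    apply hH
    apply Polynomial.eq_zero_of_natDegree_lt_card_of_eval_eq_zero H hinj
    · intro i
      rw [← hy i, hcon i, zero_pow (by omega)]
    · rw [Fintype.card_fin]
      omega
  set z : Fin (N + 1) → K := fun i => y i / y i0 with hz
  set K1 : IntermediateField L K := IntermediateField.adjoin L (Set.range z) with hK1
  set z' : Fin (N + 1) → K1 := fun i => ⟨z i, IntermediateField.subset_adjoin L _ ⟨i, rfl⟩⟩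
    with hz'
  have hc0 : (y i0 ^ m)⁻¹ ≠ 0 := inv_ne_zero (pow_ne_zero _ hi0)
  set H1 : K[X] := C (y i0 ^ m)⁻¹ * H with hH1
  have hH10 : H1 ≠ 0 := mul_ne_zero (C_ne_zero.2 hc0) hH
  have hH1n : H1.natDegree ≤ n := by
    rw [hH1, natDegree_C_mul hc0]
    exact hHn
  have hev : ∀ i, z i ^ m = H1.eval (algebraMap k K (a i)) := by
    intro i
    rw [hH1, eval_mul, eval_C, ← hy i, hz]
    simp only [div_pow]
    rw [div_eq_mul_inv, mul_comm]
  have t1 : IsScalarTower k K1 K := IsScalarTower.of_algebraMap_eq fun _ => rfl
  have t2 : IsScalarTower k L K1 := inferInstance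
  set H2 : K1[X] := Lagrange.interpolate Finset.univ (fun i => algebraMap k K1 (a i))
    (fun i => z' i ^ m) with hH2
  have hinj1 : Set.InjOn (fun i => algebraMap k K1 (a i)) (Finset.univ : Finset (Fin (N + 1))) :=
    ((algebraMap k K1).injective.comp ha).injOn
  have hH2ev : ∀ i, H2.eval (algebraMap k K1 (a i)) = z' i ^ m := fun i =>
    Lagrange.eval_interpolate_at_node _ hinj1 (Finset.mem_univ i)
  have hH2deg : H2.degree < (Finset.univ : Finset (Fin (N + 1))).card :=
    Lagrange.degree_interpolate_lt _ hinj1
  have hmap : H2.map (algebraMap K1 K) = H1 := by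
    apply Polynomial.eq_of_degrees_lt_of_eval_index_eq (s := Finset.univ)
      (v := fun i => algebraMap k K (a i)) hinj.injOn
    · rw [degree_map]
      exact hH2deg
    · rw [Finset.card_univ, Fintype.card_fin]
      refine (degree_le_natDegree).trans_lt ?_
      exact_mod_cast (by omega : H1.natDegree < N + 1)
    · intro i _
      rw [← hev i]
      have h1 : algebraMap k K (a i) = algebraMap K1 K (algebraMap k K1 (a i)) :=
        IsScalarTower.algebraMap_apply k K1 K _
      rw [h1, eval_map_algebraMap, aeval_algebraMap_apply_eq_algebraMap_eval, hH2ev i, map_pow]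
      rfl
  have hH20 : H2 ≠ 0 := by
    intro h
    apply hH10
    rw [← hmap, h, Polynomial.map_zero]
  have hH2n : H2.natDegree ≤ n := by
    rw [← natDegree_map (algebraMap K1 K), hmap]
    exact hH1n
  have hcoef : ∀ i, algebraMap K1 K (H2.coeff i) = (y i0 ^ m)⁻¹ * H.coeff i := by
    intro i
    rw [← coeff_map, hmap, hH1, coeff_C_mul]
  -- finiteness
  have hKalg : Algebra.IsAlgebraic K1 K := inferInstance
  have hess : Algebra.EssFiniteType k K1 := ess_below (k := k) (F := K1) (K := K)
  have htr1 : Algebra.trdeg k K1 = w := by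
    have h1 : Algebra.trdeg k K1 + Algebra.trdeg K1 K = Algebra.trdeg k K :=
      trdeg_add_eq k K1 (A := K)
    rw [trdeg_eq_zero (R := K1) (A := K), add_zero] at h1
    rw [h1, htr]
  have hfin1 : Module.finrank L K1 ≤ r := by
    refine le_trans ?_ hfin
    exact Submodule.finrank_le (Subalgebra.toSubmodule K1.toSubalgebra)
  -- the ratios of the coefficients
  have hHalg2 : Algebra.IsAlgebraic
      (Algebra.adjoin k {x | ∃ i j, x = H2.coeff i / H2.coeff j}) K1 := by
    set S2 : Set K1 := {x | ∃ i j, x = H2.coeff i / H2.coeff j} with hS2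
    set S : Set K := {x | ∃ i j, x = H.coeff i / H.coeff j} with hS
    set v : K1 →ₐ[k] K := IsScalarTower.toAlgHom k K1 K with hv
    have hvS : v '' S2 = S := by
      have h1 : ∀ i j, v (H2.coeff i / H2.coeff j) = H.coeff i / H.coeff j := by
        intro i j
        rw [map_div₀]
        change algebraMap K1 K (H2.coeff i) / algebraMap K1 K (H2.coeff j) = _
        rw [hcoef, hcoef, mul_div_mul_left _ _ hc0]
      ext x
      constructor
      · rintro ⟨_, ⟨i, j, rfl⟩, rfl⟩
        exact ⟨i, j, h1 i j⟩
      · rintro ⟨i, j, rfl⟩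
        exact ⟨_, ⟨i, j, rfl⟩, h1 i j⟩
    have hmapS : (Algebra.adjoin k S2).map v = Algebra.adjoin k S := by
      rw [AlgHom.map_adjoin, hvS]
    have hmem : ∀ x : Algebra.adjoin k S2, v x ∈ Algebra.adjoin k S := by
      intro x
      rw [← hmapS]
      exact ⟨x, x.2, rfl⟩
    let f : Algebra.adjoin k S2 →ₐ[k] Algebra.adjoin k S :=
      (v.comp (Algebra.adjoin k S2).val).codRestrict (Algebra.adjoin k S) hmem
    have hf : Function.Surjective f := by
      rintro ⟨x, hx⟩
      rw [← hmapS] at hx
      obtain ⟨x', hx', rfl⟩ := hx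
      exact ⟨⟨x', hx'⟩, rfl⟩
    exact Algebra.IsAlgebraic.of_ringHom_of_comp_eq (S := Algebra.adjoin k S) (B := K)
      f.toRingHom (algebraMap K1 K) hf (algebraMap K1 K).injective (by
        ext x
        rfl)
  -- the primitive element
  have hsep : Algebra.IsSeparable L K1 := by
    have : CharZero L := charZero_of_injective_algebraMap (algebraMap k L).injective
    infer_instance
  have hgen : IntermediateField.adjoin L (Set.range z') = ⊤ := by
    have h1 : (IntermediateField.adjoin L (Set.range z')).map K1.val = K1 := by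
      rw [IntermediateField.adjoin_map, ← Set.range_comp]
      rfl
    apply le_antisymm le_top
    intro x _
    have h2 : (x : K) ∈ (IntermediateField.adjoin L (Set.range z')).map K1.val := by
      rw [h1]
      exact x.2
    obtain ⟨x', hx', hxx⟩ := h2
    have h3 : x' = x := Subtype.ext hxx
    rw [← h3]
    exact hx'
  have hinf : Infinite k := IsAlgClosed.instInfinite
  obtain ⟨lam, hlam⟩ := exists_prim (k := k) z' hgen
  refine hR k K1 L w r n m N hw hr htr1 hfin1 hm hN a ha H2 hH20 hH2n hHalg2 z'
    (fun i => (hH2ev i).symm) ?_ i0 ?_ lam hlam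
  · intro p hp hpm
    have h1 : (p.map (algebraMap K1 K)) ^ m ∣ H := by
      have h2 := Polynomial.map_dvd (algebraMap K1 K) hpm
      rw [Polynomial.map_pow, hmap, hH1] at h2
      exact (((isUnit_C.2 (IsUnit.mk0 _ hc0)).dvd_mul_left).1 h2)
    obtain ⟨p', hp', hpp⟩ := Polynomial.exists_irreducible_of_natDegree_pos
      (f := p.map (algebraMap K1 K)) (by
        rw [natDegree_map]
        exact hp.natDegree_pos)
    exact hmult p' hp' ((pow_dvd_pow_of_dvd hpp m).trans h1)
  · apply Subtype.ext
    exact div_self hi0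

end Pool.Agent.N813.IM
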